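import Pool.Agent.PST.StmtsCL

/-!
# Squad PST, row CLO: closedness passes to the deformation
-/

open scoped BigOperators TensorProduct PowerSeries

noncomputable section

namespace Pool.Agent.PST.H78

open Pool.Agent.PFC (tw IsTv)
open Pool.Agent.PFD.D2b (FrR)
open Pool.Agent.PSS
open Pool.Agent.PSS.S0 (IsBQ)
open Pool.Agent.PST.U (Clo Vsh)

/-- CLO -/
theorem clo (zij : ZijStmt) (pra : PraStmt) (qrf : QrfStmt) (qbk : S3.QbkStmt)
    (bqx : S0.BqxStmt) (bcl : S0.BclStmt) (bbk : S0.BbkStmt) (res : S0.ResStmt) : CloStmt := by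
  classical
  intro ℓ _ F V E A As _ _ _ _ _ _ _ _ _ _ φ α W _ ψ γ q hp hE hA hrs hper hsc hsurj hker hqw Q
    hQ a ha hab hac
  by_contra hn
  have hl : (ℓ : F) = 0 := CharP.cast_eq_zero F ℓ
  have hpW : IsPGroup ℓ W := hp.to_subgroup W
  obtain ⟨a', ha', hb', hc', hd'⟩ := pra ℓ F W E As ψ γ Q hpW hper a ha hab hac hn
  have hqw' : ∀ w : W, q (γ w) = (α.comp W.subtype) w := fun w => hqw w
  have hqrf := qrf ℓ F W E A As ψ (α.comp W.subtype) γ q hpW hper hsc hsurj hker hqw'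
  have hqbk := qbk F W A As (α.comp W.subtype) γ q hsc hqw'
  have hres := fun P : Subgroup W => res F V A α W P
  -- monotonicity of the fixed vectors
  have hmono : ∀ {P P' : Subgroup W}, P ≤ P' → ∀ m ∈ FxR (cw F⟦X⟧ γ) P', m ∈ FxR (cw F⟦X⟧ γ) P :=
    fun h m hm x hx => hm x (h hx)
  have haQ : a' ∈ FxR (cw F⟦X⟧ γ) Q := hmono le_top a' ha'
  have hf1 : q a' ∉ BKR (cw F (α.comp W.subtype)) Q := by
    intro h
    obtain ⟨m, hm, hm2⟩ := (hqrf Q).2 a' haQ h
    exact hd' m hm hm2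
  have hf2 : ∀ Q' : Subgroup W, Q < Q' → q a' ∈ BKR (cw F (α.comp W.subtype)) Q' :=
    fun Q' h => (hqbk Q').2 a' (hb' Q' h)
  have hf3 : q a' ∈ FxR (cw F α) W := by
    have h1 := (hqbk ⊤).1 a' ha'
    rw [(hres ⊤).1] at h1
    intro v hv
    exact h1 v ⟨⟨v, hv⟩, Subgroup.mem_top _, rfl⟩
  have hf4 : ∀ z ∈ FxR (cw F (α.comp W.subtype)) Q,
      q a' * z - z * q a' ∈ BKR (cw F (α.comp W.subtype)) Q := by
    intro z hz
    obtain ⟨m, hm, rfl⟩ := (hqrf Q).1 z hz
    have h1 := (hqbk Q).2 _ (hc' m hm)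
    rwa [map_sub, map_mul, map_mul] at h1
  -- the Brauer quotient
  have hQW : Q.map W.subtype ≤ W := by
    rintro _ ⟨w, -, rfl⟩
    exact w.2
  obtain ⟨B, _, _, αB, β, hq⟩ := bqx F V A α (Q.map W.subtype)
  let E1 : Subgroup E :=
    { carrier := {e | ∀ s ∈ Q.map W.subtype, φ e s = s}
      one_mem' := by
        intro s _
        rw [map_one]
        rfl
      mul_mem' := by
        intro e e' h h' s hs
        rw [map_mul, MulAut.mul_apply, h' s hs, h s hs]
      inv_mem' := by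
        intro e h s hs
        have h1 := h s hs
        rw [map_inv]
        calc (φ e)⁻¹ s = (φ e)⁻¹ (φ e s) := by rw [h1]
          _ = s := MulAut.inv_apply_self _ _ _ }
  have hE1 : ∀ e, e ∈ E1 ↔ ∀ s ∈ Q.map W.subtype, φ e s = s := fun e => Iff.rfl
  have hB : Cl F (φ.comp E1.subtype) αB :=
    bcl ℓ F V E A B φ α (Q.map W.subtype) αB β E1 hp hE hA hq hE1
  obtain ⟨lam, K, _, x, y, hRF, -⟩ := hA.rt
  have hfx : ∀ P : Subgroup V, P ≤ W → q a' ∈ FxR (cw F α) P := fun P h v hv => hf3 v (h hv)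
  have hfQ : q a' ∈ FxR (cw F α) (Q.map W.subtype) := hfx _ hQW
  have hz1 : β (q a') ≠ 0 := by
    intro h
    apply hf1
    rw [(hres Q).2]
    exact (hq.ker _ hfQ).1 h
  have hzc : ∀ w : B, β (q a') * w = w * β (q a') := by
    intro w
    obtain ⟨z, hz, rfl⟩ := hq.surj w
    have hz' : z ∈ FxR (cw F (α.comp W.subtype)) Q := by
      rw [(hres Q).1]
      exact hz
    have h1 := hf4 z hz'
    rw [(hres Q).2] at h1
    have hmul : ∀ u ∈ FxR (cw F α) (Q.map W.subtype), ∀ v ∈ FxR (cw F α) (Q.map W.subtype),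
        u * v ∈ FxR (cw F α) (Q.map W.subtype) := by
      intro u hu v hv g hg
      have e1 := hu g hg
      have e2 := hv g hg
      have hcw : ∀ s : A, cw F α g s = α g * (s * α g⁻¹) := fun s => rfl
      rw [hcw] at e1 e2 ⊢
      have hgi : α g⁻¹ * α g = 1 := by rw [← map_mul, inv_mul_cancel, map_one]
      calc α g * (u * v * α g⁻¹) = α g * (u * α g⁻¹) * (α g * (v * α g⁻¹)) := by
            simp only [mul_assoc]
            rw [← mul_assoc (α g⁻¹) (α g), hgi, one_mul]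
        _ = u * v := by rw [e1, e2]
    have hd : q a' * z - z * q a' ∈ FxR (cw F α) (Q.map W.subtype) :=
      Submodule.sub_mem _ (hmul _ hfQ _ hz) (hmul _ hz _ hfQ)
    have h2 := (hq.ker _ hd).2 h1
    have h3 := hq.add _ hd _ (hmul _ hz _ hfQ)
    rw [sub_add_cancel, h2, zero_add, hq.mul _ hfQ _ hz, hq.mul _ hz _ hfQ] at h3
    exact h3
  -- the fixed points of `E1`
  let P : Subgroup V :=
    { carrier := {v | v ∈ W ∧ ∀ e ∈ E1, φ e v = v}
      one_mem' := ⟨W.one_mem, fun e _ => map_one _⟩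
      mul_mem' := by
        rintro u v ⟨h1, h2⟩ ⟨h3, h4⟩
        refine ⟨W.mul_mem h1 h3, fun e he => ?_⟩
        rw [map_mul, h2 e he, h4 e he]
      inv_mem' := by
        rintro u ⟨h1, h2⟩
        refine ⟨W.inv_mem h1, fun e he => ?_⟩
        rw [map_inv, h2 e he] }
  have hPW : P ≤ W := fun v hv => hv.1
  have hQP : Q.map W.subtype ≤ P := fun v hv => ⟨hQW hv, fun e he => he v hv⟩
  have hne : ¬ P ≤ Q.map W.subtype := by
    intro hle
    apply hQ
    intro w hw
    have hwP : (w : V) ∈ P := by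
      refine ⟨w.2, fun e he => ?_⟩
      have h1 : ψ e w = w := by
        refine hw e fun u hu => ?_
        apply Subtype.ext
        rw [hrs e u]
        exact he _ ⟨u, hu, rfl⟩
      rw [← hrs e w, h1]
    obtain ⟨w', hw', hww⟩ := hle hwP
    have : w' = w := Subtype.ext hww
    rwa [← this]
  have hlt : Q < P.subgroupOf W := by
    refine lt_of_le_not_ge ?_ ?_
    · intro u hu
      exact hQP ⟨u, hu, rfl⟩
    · intro hle
      apply hne
      intro v hv
      exact ⟨⟨v, hPW hv⟩, hle (show (v : V) ∈ P from hv), rfl⟩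
  have hmap : (P.subgroupOf W).map W.subtype = P := by
    rw [Subgroup.subgroupOf_map_subtype]
    exact inf_eq_left.2 hPW
  have hfP : q a' ∈ BKR (cw F α) P := by
    have h1 := hf2 _ hlt
    rwa [(hres _).2, hmap] at h1
  have hsup : P ⊔ Q.map W.subtype = P := sup_eq_left.2 hQP
  have hb := (bbk ℓ F V E A B K φ α (Q.map W.subtype) αB β lam x y P hl hp hA.per hRF hq).1
    (q a') (by rw [hsup]; exact hfx P hPW)
  rw [hsup] at hb
  have hzP : β (q a') ∈ BKR (cw F αB) P := hb.2.2 hfP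
  have hcard : ¬ ℓ ∣ Nat.card E1 := fun h => hE (h.trans (Subgroup.card_subgroup_dvd_card E1))
  exact hz1 (zij ℓ F V E1 B (φ.comp E1.subtype) αB P hp hcard hB
    (fun g v hv => hv.2 g.1 g.2) (β (q a')) hzc hzP)

end Pool.Agent.PST.H78
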